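import Pool.Agent.Q80.ND.Ver

/-!
Rational curves of large degree on the projected Veronese surface: the ideal, the Hilbert function.
-/

namespace Pool.Agent.Q80.ND

open MvPolynomial Pool.Agent.Helper56.Disc

variable {k : Type*} [Field k]

/-- the parametrisation of the plane curve `x ^ m = y ^ (m - 1) z` -/
noncomputable def theta (k : Type*) [Field k] (m : ℕ) :
    MvPolynomial (Fin 3) k →ₐ[k] MvPolynomial (Fin 2) k :=
  aeval ![X 0 * X 1 ^ (m - 1), X 1 ^ m, X 0 ^ m]

/-- the parametrisation of the curve in projective four-space -/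
noncomputable def phi (k : Type*) [Field k] (m : ℕ) :
    MvPolynomial (Fin 5) k →ₐ[k] MvPolynomial (Fin 2) k := (theta k m).comp (psi k)

/-- the ideal of the curve -/
noncomputable def PC (k : Type*) [Field k] (m : ℕ) : Ideal (MvPolynomial (Fin (4 + 1)) k) :=
  RingHom.ker (phi k m)

theorem theta_m3 (m a b c : ℕ) : theta k m (m3 k a b c) =
    X 0 ^ (a + m * c) * X 1 ^ ((m - 1) * a + m * b) := by
  unfold m3 theta
  simp only [map_mul, map_pow, aeval_X]
  change (X 0 * X 1 ^ (m - 1)) ^ a * (X 1 ^ m) ^ b * (X 0 ^ m) ^ c = _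
  rw [mul_pow, ← pow_mul, ← pow_mul, ← pow_mul, pow_add, pow_add]
  ring

theorem theta_isHomogeneous (m j : ℕ) (hm : 1 ≤ m) (p : MvPolynomial (Fin 3) k)
    (hp : p.IsHomogeneous j) : (theta k m p).IsHomogeneous (m * j) := by
  refine hp.aeval _ ?_
  intro i
  fin_cases i
  · have := (isHomogeneous_X k (0 : Fin 2)).mul (isHomogeneous_X_pow (R := k) (1 : Fin 2) (m - 1))
    have e : 1 + (m - 1) = m := by omega
    rw [e] at this
    exact this
  · exact isHomogeneous_X_pow _ _
  · exact isHomogeneous_X_pow _ _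

theorem psi_isHomogeneous (j : ℕ) (p : MvPolynomial (Fin 5) k)
    (hp : p.IsHomogeneous j) : (psi k p).IsHomogeneous (2 * j) := by
  have h1 : ∀ i, (qq k i).IsHomogeneous 2 := by
    intro i
    have h2 : ∀ a b : Fin 3, (X a * X b : MvPolynomial (Fin 3) k).IsHomogeneous 2 :=
      fun a b => (isHomogeneous_X k a).mul (isHomogeneous_X k b)
    fin_cases i
    · exact h2 0 0
    · exact h2 0 1
    · exact (h2 1 1).add (h2 0 2)
    · exact h2 1 2
    · exact h2 2 2
  exact hp.aeval _ h1

theorem phi_isHomogeneous (m j : ℕ) (hm : 1 ≤ m) (p : MvPolynomial (Fin 5) k)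
    (hp : p.IsHomogeneous j) : (phi k m p).IsHomogeneous (m * (2 * j)) :=
  theta_isHomogeneous m _ hm _ (psi_isHomogeneous j p hp)

theorem phi_component (m j : ℕ) (hm : 1 ≤ m) (p : MvPolynomial (Fin 5) k) :
    homogeneousComponent (m * (2 * j)) (phi k m p) = phi k m (homogeneousComponent j p) := by
  conv_lhs => rw [← sum_homogeneousComponent p]
  rw [map_sum, map_sum]
  have h : ∀ i, homogeneousComponent (m * (2 * j)) (phi k m (homogeneousComponent i p)) =
      if j = i then phi k m (homogeneousComponent i p) else 0 := by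
    intro i
    have h1 := phi_isHomogeneous m i hm _ (homogeneousComponent_isHomogeneous i p)
    rw [homogeneousComponent_of_mem h1]
    by_cases hi : j = i
    · simp [hi]
    · rw [if_neg, if_neg hi]
      intro h2
      apply hi
      have := Nat.eq_of_mul_eq_mul_left (by omega : 0 < m) h2
      omega
  simp only [h]
  rw [Finset.sum_ite_eq]
  split_ifs with ha
  · rfl
  · rw [homogeneousComponent_eq_zero, map_zero]
    rw [Finset.mem_range] at ha
    omega

theorem isVariety (m : ℕ) (hm : 1 ≤ m) : IsVariety (PC k m) := by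
  refine ⟨RingHom.ker_isPrime _, ?_, 0, ?_⟩
  · intro p hp j
    change phi k m (homogeneousComponent j p) = 0
    have hp' : phi k m p = 0 := hp
    rw [← phi_component m j hm, hp', map_zero]
  · intro h
    have h1 : phi k m (X 0) = 0 := h
    have h2 : phi k m (X 0) = (X 0 * X 1 ^ (m - 1)) * (X 0 * X 1 ^ (m - 1)) := by
      unfold phi
      rw [AlgHom.comp_apply, psi_X]
      change theta k m (X 0 * X 0) = _
      rw [map_mul]
      unfold theta
      rw [aeval_X]
      rfl
    rw [h2] at h1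
    have h3 : (X 0 * X 1 ^ (m - 1) : MvPolynomial (Fin 2) k) ≠ 0 :=
      mul_ne_zero (X_ne_zero _) (pow_ne_zero _ (X_ne_zero _))
    exact h3 (mul_self_eq_zero.1 h1)

theorem finrank_map_ker {A B : Type*} [CommRing A] [Algebra k A] [CommRing B] [Algebra k B]
    (f : A →ₐ[k] B) (S : Submodule k A) :
    Module.finrank k (S.map (Ideal.Quotient.mkₐ k (RingHom.ker f)).toLinearMap) =
      Module.finrank k (S.map f.toLinearMap) := by
  have h1 : S.map f.toLinearMap = (S.map (Ideal.Quotient.mkₐ k (RingHom.ker f)).toLinearMap).map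
      (Ideal.kerLiftAlg f).toLinearMap := by
    rw [← Submodule.map_comp]
    rfl
  rw [h1]
  exact (Submodule.equivMapOfInjective (Ideal.kerLiftAlg f).toLinearMap
    (Ideal.kerLiftAlg_injective f) _).finrank_eq

/-- index set of a basis -/
def idx (m t : ℕ) : Finset (ℕ × ℕ) :=
  ((Finset.range m) ×ˢ (Finset.range (2 * t + 1))).filter (fun x => x.1 + x.2 ≤ 2 * t)

theorem mem_idx (m t : ℕ) (x : ℕ × ℕ) : x ∈ idx m t ↔ x.1 < m ∧ x.1 + x.2 ≤ 2 * t := by
  unfold idx
  rw [Finset.mem_filter, Finset.mem_product, Finset.mem_range, Finset.mem_range]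
  constructor
  · rintro ⟨⟨h1, _⟩, h3⟩
    exact ⟨h1, h3⟩
  · rintro ⟨h1, h2⟩
    exact ⟨⟨h1, by omega⟩, h2⟩

/-- exponents in two variables -/
noncomputable def ex (m t e : ℕ) : Fin 2 →₀ ℕ := Finsupp.single 0 e + Finsupp.single 1 (2 * t * m - e)

theorem ex_zero (m t e : ℕ) : ex m t e 0 = e := by
  simp [ex]

theorem monomial_ex (m t e : ℕ) : (monomial (ex m t e) 1 : MvPolynomial (Fin 2) k) =
    X 0 ^ e * X 1 ^ (2 * t * m - e) := by
  unfold ex
  rw [X_pow_eq_monomial, X_pow_eq_monomial, monomial_mul, mul_one]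

theorem li (m t : ℕ) : LinearIndependent k
    (fun x : idx m t => (monomial (ex m t (x.1.1 + m * x.1.2)) 1 : MvPolynomial (Fin 2) k)) := by
  have h1 := (basisMonomials (Fin 2) k).linearIndependent
  rw [coe_basisMonomials] at h1
  refine h1.comp (fun x : idx m t => ex m t (x.1.1 + m * x.1.2)) ?_
  intro x y hxy
  have h2 := DFunLike.congr_fun hxy 0
  simp only [ex_zero] at h2
  have hx := (mem_idx m t x.1).1 x.2
  have hy := (mem_idx m t y.1).1 y.2
  have h3 : x.1.1 = y.1.1 := by
    have e1 : (x.1.1 + m * x.1.2) % m = x.1.1 := by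
      rw [Nat.add_mul_mod_self_left, Nat.mod_eq_of_lt hx.1]
    have e2 : (y.1.1 + m * y.1.2) % m = y.1.1 := by
      rw [Nat.add_mul_mod_self_left, Nat.mod_eq_of_lt hy.1]
    rw [← e1, h2, e2]
  have h4 : x.1.2 = y.1.2 := by
    have : m * x.1.2 = m * y.1.2 := by omega
    exact Nat.eq_of_mul_eq_mul_left (by omega) this
  exact Subtype.ext (Prod.ext h3 h4)

theorem span_eq (m t : ℕ) (hm : 1 ≤ m) (ht : 2 ≤ t) :
    (homogeneousSubmodule (Fin 5) k t).map (phi k m).toLinearMap =
    Submodule.span k (Set.range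
    (fun x : idx m t => (monomial (ex m t (x.1.1 + m * x.1.2)) 1 : MvPolynomial (Fin 2) k))) := by
  have h1 : (homogeneousSubmodule (Fin 5) k t).map (phi k m).toLinearMap =
      (homogeneousSubmodule (Fin 3) k (2 * t)).map (theta k m).toLinearMap := by
    rw [← WW_eq t ht]
    unfold WW
    rw [← Submodule.map_comp]
    rfl
  rw [h1]
  have key : ∀ a b c : ℕ, a + b + c = 2 * t → theta k m (m3 k a b c) =
      monomial (ex m t (a + m * c)) 1 := by
    intro a b c h
    rw [theta_m3, monomial_ex]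
    congr 2
    have e1 : 2 * t * m = (a + m * c) + ((m - 1) * a + m * b) := by
      obtain ⟨m', rfl⟩ : ∃ m', m = m' + 1 := ⟨m - 1, by omega⟩
      rw [← h, Nat.add_sub_cancel]
      ring
    rw [e1, Nat.add_sub_cancel_left]
  apply le_antisymm
  · rintro _ ⟨p, hp, rfl⟩
    rw [SetLike.mem_coe, mem_homogeneousSubmodule] at hp
    rw [AlgHom.toLinearMap_apply, p.as_sum, map_sum]
    refine Submodule.sum_mem _ fun α hα => ?_
    have hdeg : α 0 + α 1 + α 2 = 2 * t := by
      rw [← degree_eq3]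
      exact degree_of_isHomogeneous hp (mem_support_iff.1 hα)
    rw [monomial_eq_m3, map_smul, key _ _ _ hdeg]
    refine Submodule.smul_mem _ _ (Submodule.subset_span ?_)
    refine ⟨⟨(α 0 % m, α 2 + α 0 / m), ?_⟩, ?_⟩
    · rw [mem_idx]
      refine ⟨Nat.mod_lt _ (by omega), ?_⟩
      simp only
      have h2 := Nat.mod_add_div (α 0) m
      have h3 : α 0 / m ≤ m * (α 0 / m) := Nat.le_mul_of_pos_left _ (by omega)
      omega
    · have h2 := Nat.mod_add_div (α 0) m
      have h5 : α 0 % m + m * (α 2 + α 0 / m) = α 0 + m * α 2 := by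
        rw [mul_add]; omega
      change (monomial (ex m t (α 0 % m + m * (α 2 + α 0 / m))) 1 : MvPolynomial (Fin 2) k) = _
      rw [h5]
  · rw [Submodule.span_le]
    rintro _ ⟨x, rfl⟩
    have hx := (mem_idx m t x.1).1 x.2
    refine ⟨m3 k x.1.1 (2 * t - x.1.1 - x.1.2) x.1.2, ?_, ?_⟩
    · rw [SetLike.mem_coe, mem_homogeneousSubmodule]
      unfold m3
      have h2 := ((isHomogeneous_X_pow (R := k) (0 : Fin 3) x.1.1).mul
        (isHomogeneous_X_pow (R := k) (1 : Fin 3) (2 * t - x.1.1 - x.1.2))).mul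
        (isHomogeneous_X_pow (R := k) (2 : Fin 3) x.1.2)
      have h3 : x.1.1 + (2 * t - x.1.1 - x.1.2) + x.1.2 = 2 * t := by omega
      rwa [h3] at h2
    · exact key _ _ _ (by omega)

theorem card_idx (m t : ℕ) (h : m ≤ 2 * t + 1) :
    (idx m t).card = ∑ a ∈ Finset.range m, (2 * t + 1 - a) := by
  have h1 : idx m t = ((Finset.range m).sigma (fun a => Finset.range (2 * t + 1 - a))).map
      ⟨fun x => (x.1, x.2), fun x y hxy => by
        obtain ⟨a, b⟩ := x
        obtain ⟨c, d⟩ := y
        simp only [Prod.mk.injEq] at hxy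
        rw [hxy.1, hxy.2]⟩ := by
    ext x
    rw [mem_idx, Finset.mem_map]
    constructor
    · rintro ⟨h1, h2⟩
      refine ⟨⟨x.1, x.2⟩, ?_, rfl⟩
      rw [Finset.mem_sigma, Finset.mem_range, Finset.mem_range]
      exact ⟨h1, by simp only; omega⟩
    · rintro ⟨y, hy, rfl⟩
      rw [Finset.mem_sigma, Finset.mem_range, Finset.mem_range] at hy
      change y.1 < m ∧ y.1 + y.2 ≤ 2 * t
      omega
  rw [h1, Finset.card_map, Finset.card_sigma]
  simp

theorem sum_eq (m t : ℕ) (h : m ≤ 2 * t + 1) :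
    ((∑ a ∈ Finset.range m, (2 * t + 1 - a) : ℕ) : ℚ) =
      2 * m * t + (m - m * (m - 1) / 2) := by
  induction m with
  | zero => simp
  | succ m ih =>
    rw [Finset.sum_range_succ, Nat.cast_add, ih (by omega), Nat.cast_sub (by omega)]
    push_cast
    ring

theorem hilbert (m t : ℕ) (hm : 1 ≤ m) (ht : 2 ≤ t) (h : m ≤ 2 * t + 1) :
    (hilbertFn (PC k m) t : ℚ) = 2 * m * t + (m - m * (m - 1) / 2) := by
  have h1 : hilbertFn (PC k m) t = (idx m t).card := by
    unfold hilbertFn PC
    have := finrank_map_ker (phi k m) (homogeneousSubmodule (Fin 5) k t)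
    rw [span_eq m t hm ht, finrank_span_eq_card (li m t)] at this
    rw [Fintype.card_coe] at this
    exact this
  rw [h1, card_idx m t h]
  exact sum_eq m t h

theorem hasDimDegree (m : ℕ) (hm : 1 ≤ m) : HasDimDegree (PC k m) 1 (2 * m) := by
  have hm0 : (2 * (m : ℚ)) ≠ 0 := by
    have : (m : ℚ) ≠ 0 := by rw [Nat.cast_ne_zero]; omega
    positivity
  refine ⟨Polynomial.C (2 * (m : ℚ)) * Polynomial.X + Polynomial.C ((m : ℚ) - m * (m - 1) / 2),
    ?_, ?_, max 2 m, ?_⟩
  · exact Polynomial.natDegree_linear hm0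
  · rw [Polynomial.leadingCoeff_linear hm0]
    simp
  · intro t ht
    rw [hilbert m t hm (le_trans (le_max_left _ _) ht) (by
      have := le_trans (le_max_right 2 m) ht
      omega)]
    simp

end Pool.Agent.Q80.ND
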