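import Mathlib

/-!
Definitions: varieties in projective space as homogeneous prime ideals, their dimension and degree,
and the condition `ND(ℓ)`.
-/

namespace Pool.Agent.Q80.ND

open MvPolynomial

variable {k : Type*} [Field k] {N : ℕ}

/-- `I` is the ideal of an integral closed subscheme of projective `N`-space (an ideal that is
prime and homogeneous and does not contain all the variables). -/
def IsVariety (I : Ideal (MvPolynomial (Fin (N + 1)) k)) : Prop :=
  I.IsPrime ∧ (∀ p ∈ I, ∀ j, homogeneousComponent j p ∈ I) ∧ ∃ i, X i ∉ I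

/-- The Hilbert function of `k[x_0, ..., x_N] / I`: the dimension of the image of the space of
forms of degree `t`. -/
noncomputable def hilbertFn (I : Ideal (MvPolynomial (Fin (N + 1)) k)) (t : ℕ) : ℕ :=
  Module.finrank k ((homogeneousSubmodule (Fin (N + 1)) k t).map (Ideal.Quotient.mkₐ k I).toLinearMap)

/-- The dimension `n` and the degree `D` read off from the Hilbert polynomial. -/
def HasDimDegree (I : Ideal (MvPolynomial (Fin (N + 1)) k)) (n D : ℕ) : Prop :=
  ∃ p : Polynomial ℚ, p.natDegree = n ∧ p.leadingCoeff = (D : ℚ) / (n.factorial : ℚ) ∧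
    ∃ t₀, ∀ t ≥ t₀, (hilbertFn I t : ℚ) = p.eval (t : ℚ)

/-- No hypersurface of degree `ℓ` contains the variety: `H⁰(I_X(ℓ)) = 0`. -/
def NoHypersurface (I : Ideal (MvPolynomial (Fin (N + 1)) k)) (ℓ : ℕ) : Prop :=
  ∀ Q ∈ I, Q.IsHomogeneous ℓ → Q = 0

/-- The ideal generated by the linear forms whose coefficients are the rows of `A`. -/
noncomputable def linIdeal {c : ℕ} (A : Fin c × Fin (N + 1) → k) :
    Ideal (MvPolynomial (Fin (N + 1)) k) :=
  Ideal.span (Set.range fun j : Fin c => ∑ i, C (A (j, i)) * X i)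

/-- `H⁰(I_{X ∩ Λ / Λ}(ℓ)) = 0` for the linear space `Λ` cut out by the rows of `A`: every form of
degree `ℓ` in the saturation of `I + I_Λ` lies in `I_Λ`. -/
def NoHypersurfaceOn {c : ℕ} (I : Ideal (MvPolynomial (Fin (N + 1)) k))
    (A : Fin c × Fin (N + 1) → k) (ℓ : ℕ) : Prop :=
  ∀ Q : MvPolynomial (Fin (N + 1)) k, Q.IsHomogeneous ℓ →
    (∃ M : ℕ, ∀ i, X i ^ M * Q ∈ I ⊔ linIdeal A) → Q ∈ linIdeal A

/-- Condition `ND(ℓ)` for a closed subscheme of codimension `e` in projective `N`-space: for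
every `c ≤ N - e`, the condition `NoHypersurfaceOn` holds for general linear spaces of codimension
`c`, i.e. on a nonempty Zariski open set of matrices of coefficients. -/
def ND (I : Ideal (MvPolynomial (Fin (N + 1)) k)) (e ℓ : ℕ) : Prop :=
  ∀ c : ℕ, c + e ≤ N → ∃ F : MvPolynomial (Fin c × Fin (N + 1)) k, F ≠ 0 ∧
    ∀ A : Fin c × Fin (N + 1) → k, eval A F ≠ 0 → NoHypersurfaceOn I A ℓ

end Pool.Agent.Q80.ND
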