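import Pool.Agent.Q80.ND.Curve

/-!
The curves lie on no quadric and all their hyperplane sections do.
-/

namespace Pool.Agent.Q80.ND

open MvPolynomial Pool.Agent.Helper56.Disc

variable {k : Type*} [Field k]

theorem theta_injOn (m : ℕ) (hm : 5 ≤ m) (p : MvPolynomial (Fin 3) k) (hp : p.IsHomogeneous 4)
    (h0 : theta k m p = 0) : p = 0 := by
  by_contra hne
  obtain ⟨α, hα⟩ := MvPolynomial.ne_zero_iff.1 hne
  set τ : (Fin 3 →₀ ℕ) → (Fin 2 →₀ ℕ) := fun β => Finsupp.single 0 (β 0 + m * β 2) +
    Finsupp.single 1 ((m - 1) * β 0 + m * β 1) with hτ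
  have h1 : theta k m p = ∑ β ∈ p.support, monomial (τ β) (coeff β p) := by
    conv_lhs => rw [p.as_sum]
    rw [map_sum]
    apply Finset.sum_congr rfl
    intro β _
    rw [monomial_eq_m3, map_smul, theta_m3]
    have : (monomial (τ β) (coeff β p) : MvPolynomial (Fin 2) k) =
        coeff β p • (monomial (τ β) 1) := by
      rw [smul_monomial, smul_eq_mul, mul_one]
    rw [this]
    congr 1
    simp only [hτ]
    rw [X_pow_eq_monomial, X_pow_eq_monomial, monomial_mul, mul_one]
  have hinj : ∀ β ∈ p.support, τ β = τ α → β = α := by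
    intro β hβ hτβ
    have hdβ : β 0 + β 1 + β 2 = 4 := by
      rw [← degree_eq3]; exact degree_of_isHomogeneous hp (mem_support_iff.1 hβ)
    have hdα : α 0 + α 1 + α 2 = 4 := by
      rw [← degree_eq3]; exact degree_of_isHomogeneous hp hα
    have h2 := DFunLike.congr_fun hτβ 0
    simp [hτ] at h2
    have h3 : β 0 = α 0 := by
      have e1 : (β 0 + m * β 2) % m = β 0 := by
        rw [Nat.add_mul_mod_self_left, Nat.mod_eq_of_lt (by omega)]
      have e2 : (α 0 + m * α 2) % m = α 0 := by
        rw [Nat.add_mul_mod_self_left, Nat.mod_eq_of_lt (by omega)]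
      rw [← e1, h2, e2]
    have h4 : β 2 = α 2 := by
      have : m * β 2 = m * α 2 := by omega
      exact Nat.eq_of_mul_eq_mul_left (by omega) this
    ext i
    fin_cases i
    · exact h3
    · change β 1 = α 1
      omega
    · exact h4
  have h2 : coeff (τ α) (theta k m p) = coeff α p := by
    rw [h1, coeff_sum, Finset.sum_eq_single α]
    · rw [coeff_monomial, if_pos rfl]
    · intro β hβ hne
      rw [coeff_monomial, if_neg]
      intro h
      exact hne (hinj β hβ h)
    · intro h
      exact absurd (mem_support_iff.2 hα) h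
  rw [h0, coeff_zero] at h2
  exact hα h2.symm

theorem card_mon (n e : ℕ) : Fintype.card (Mon n e) = (n + e - 1).choose e := by
  rw [Fintype.card_coe, Finset.card_finsuppAntidiag_nat_eq_choose]
  simp

/-- restriction of `psi` to quadratic forms, in coordinates -/
noncomputable def TT (k : Type*) [Field k] : (Mon 5 2 → k) →ₗ[k] (Mon 3 4 → k) where
  toFun c := cv (psi k (form c))
  map_add' x y := by
    rw [form_add, map_add]
    funext γ
    simp [cv]
  map_smul' a x := by
    rw [form_smul, map_mul]
    funext γ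
    have : psi k (C a) = C a := (psi k).commutes a
    rw [this]
    simp [cv]

theorem TT_injective : Function.Injective (TT k) := by
  have hfin : Module.finrank k (Mon 5 2 → k) = Module.finrank k (Mon 3 4 → k) := by
    rw [Module.finrank_fintype_fun_eq_card, Module.finrank_fintype_fun_eq_card, card_mon, card_mon]
    decide
  rw [LinearMap.injective_iff_surjective_of_finrank_eq_finrank hfin]
  intro y
  have h1 : form y ∈ WW k 2 := by
    rw [WW_eq 2 le_rfl, mem_homogeneousSubmodule]
    exact form_isHomogeneous y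
  obtain ⟨f, hf, hfy⟩ := h1
  rw [SetLike.mem_coe, mem_homogeneousSubmodule] at hf
  refine ⟨cv f, ?_⟩
  change cv (psi k (form (cv f))) = y
  rw [form_cv f hf]
  have : psi k f = form y := hfy
  rw [this, cv_form]

theorem noHypersurface (m : ℕ) (hm : 5 ≤ m) : NoHypersurface (PC k m) 2 := by
  intro Q hQ hQ2
  have h1 : theta k m (psi k Q) = 0 := hQ
  have h2 : psi k Q = 0 := theta_injOn m hm _ (psi_isHomogeneous 2 Q hQ2) h1
  have h3 : TT k (cv Q) = TT k 0 := by
    rw [map_zero]
    change cv (psi k (form (cv Q))) = 0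
    rw [form_cv Q hQ2, h2]
    funext γ
    simp [cv]
  have h4 := TT_injective h3
  rw [← form_cv (e := 2) Q hQ2, h4]
  simp [form]

/-- the functional `coeff_{xz} - coeff_{y²}` -/
theorem functional (g : MvPolynomial (Fin 5) k) :
    coeff (Finsupp.single 0 1 + Finsupp.single 2 1) (psi k g) =
      coeff (Finsupp.single 1 2) (psi k g) := by
  have hne1 : (Finsupp.single 0 1 + Finsupp.single 2 1 : Fin 3 →₀ ℕ) ≠ 0 := by
    intro h
    have := DFunLike.congr_fun h 0
    simp at this
  have hne2 : (Finsupp.single 1 2 : Fin 3 →₀ ℕ) ≠ 0 := by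
    intro h
    have := DFunLike.congr_fun h 1
    simp at this
  have hd1 : (Finsupp.single 0 1 + Finsupp.single 2 1 : Fin 3 →₀ ℕ).degree = 2 := by
    rw [degree_eq3]; simp
  have hd2 : (Finsupp.single 1 2 : Fin 3 →₀ ℕ).degree = 2 := by
    rw [degree_eq3]; simp
  have key : ∀ j, ∀ p : MvPolynomial (Fin 5) k, p.IsHomogeneous j →
      coeff (Finsupp.single 0 1 + Finsupp.single 2 1) (psi k p) =
      coeff (Finsupp.single 1 2) (psi k p) := by
    intro j p hp
    by_cases hj : j = 1
    · subst hj
      rw [p.as_sum, map_sum, coeff_sum, coeff_sum]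
      apply Finset.sum_congr rfl
      intro β hβ
      have h1 : β.degree = 1 := degree_of_isHomogeneous hp (mem_support_iff.1 hβ)
      obtain ⟨i, rfl⟩ : ∃ i, β = Finsupp.single i 1 := by
        have hne : β ≠ 0 := by
          rintro rfl
          simp at h1
        obtain ⟨i, hi⟩ := Finsupp.ne_iff.1 hne
        simp only [Finsupp.coe_zero, Pi.zero_apply] at hi
        refine ⟨i, ?_⟩
        have h2 : β = Finsupp.single i 1 + (β - Finsupp.single i 1) := by
          ext l
          simp only [Finsupp.add_apply, Finsupp.tsub_apply, Finsupp.single_apply]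
          split_ifs with h
          · subst h; omega
          · omega
        have h3 : (β - Finsupp.single i 1).degree = 0 := by
          have := congrArg Finsupp.degree h2
          rw [map_add, h1] at this
          simp at this
          rw [this]
        rw [Finsupp.degree_eq_zero_iff] at h3
        rw [h3, add_zero] at h2
        exact h2
      have h2 : monomial (Finsupp.single i 1) (coeff (Finsupp.single i 1) p) =
          coeff (Finsupp.single i 1) p • (X i : MvPolynomial (Fin 5) k) := by
        rw [X, smul_monomial, smul_eq_mul, mul_one]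
      rw [h2, map_smul, psi_X, coeff_smul, coeff_smul]
      congr 1
      have hX : ∀ a b : Fin 3, (X a * X b : MvPolynomial (Fin 3) k) =
          monomial (Finsupp.single a 1 + Finsupp.single b 1) 1 := by
        intro a b
        rw [X, X, monomial_mul, mul_one]
      have hx : ∀ a b : Fin 3, ∀ γ : Fin 3 →₀ ℕ, coeff γ (X a * X b : MvPolynomial (Fin 3) k) =
          if Finsupp.single a 1 + Finsupp.single b 1 = γ then 1 else 0 := by
        intro a b γ
        rw [hX, coeff_monomial]
      have t : ∀ f g : Fin 3 →₀ ℕ, (f = g) ↔ (f 0 = g 0 ∧ f 1 = g 1 ∧ f 2 = g 2) := by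
        intro f g
        constructor
        · rintro rfl; exact ⟨rfl, rfl, rfl⟩
        · rintro ⟨h0, h1, h2⟩
          ext i
          fin_cases i
          · exact h0
          · exact h1
          · exact h2
      fin_cases i
      · change coeff _ (X 0 * X 0) = coeff _ (X 0 * X 0)
        rw [hx, hx]
        simp [t]
      · change coeff _ (X 0 * X 1) = coeff _ (X 0 * X 1)
        rw [hx, hx]
        simp [t]
      · change coeff _ (X 1 * X 1 + X 0 * X 2) = coeff _ (X 1 * X 1 + X 0 * X 2)
        rw [coeff_add, coeff_add, hx, hx, hx, hx]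
        simp [t]
      · change coeff _ (X 1 * X 2) = coeff _ (X 1 * X 2)
        rw [hx, hx]
        simp [t]
      · change coeff _ (X 2 * X 2) = coeff _ (X 2 * X 2)
        rw [hx, hx]
        simp [t]
    · have h1 := psi_isHomogeneous j p hp
      have h2 : ∀ γ : Fin 3 →₀ ℕ, γ.degree = 2 → coeff γ (psi k p) = 0 := by
        intro γ hγ
        by_contra h
        have := degree_of_isHomogeneous h1 h
        omega
      rw [h2 _ hd1, h2 _ hd2]
  rw [← sum_homogeneousComponent g, map_sum, coeff_sum, coeff_sum]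
  apply Finset.sum_congr rfl
  intro j _
  exact key j _ (homogeneousComponent_isHomogeneous j g)

theorem mem_quartic {p : MvPolynomial (Fin 3) k} (hp : p.IsHomogeneous 4) :
    ∃ Q : MvPolynomial (Fin 5) k, Q.IsHomogeneous 2 ∧ psi k Q = p := by
  have h1 : p ∈ WW k 2 := by
    rw [WW_eq 2 le_rfl, mem_homogeneousSubmodule]
    exact hp
  obtain ⟨f, hf, hfy⟩ := h1
  rw [SetLike.mem_coe, mem_homogeneousSubmodule] at hf
  exact ⟨f, hf, hfy⟩

/-- Every hyperplane section lies on a quadric. -/
theorem not_noHypersurfaceOn (m : ℕ) (A : Fin 1 × Fin (4 + 1) → k) (hA : A (0, 0) ≠ 0) :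
    ¬ NoHypersurfaceOn (PC k m) A 2 := by
  intro h
  set A' : Fin 5 → k := fun i => A (0, i) with hA'
  set L : MvPolynomial (Fin 5) k := ∑ i, C (A' i) * X i with hL
  have hlin : linIdeal A = Ideal.span {L} := by
    unfold linIdeal
    congr 1
    ext y
    simp only [Set.mem_range, Set.mem_singleton_iff]
    constructor
    · rintro ⟨j, rfl⟩
      rw [Subsingleton.elim j 0]
    · rintro rfl
      exact ⟨0, rfl⟩
  have hLh : L.IsHomogeneous 1 := by
    refine IsHomogeneous.sum _ _ _ fun i _ => ?_
    have := (isHomogeneous_C (Fin 5) (A' i)).mul (isHomogeneous_X k i)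
    rwa [zero_add] at this
  have hr : (X 0 * X 2 : MvPolynomial (Fin 3) k).IsHomogeneous 2 :=
    (isHomogeneous_X k 0).mul (isHomogeneous_X k 2)
  obtain ⟨Q, hQ2, hQ⟩ := mem_quartic (k := k) (p := X 0 * X 2 * psi k L)
    (hr.mul (psi_isHomogeneous 1 L hLh))
  have hpsiL : psi k L ≠ 0 := by
    intro h0
    have h1 : coeff (Finsupp.single 0 2) (psi k L) = A' 0 := by
      rw [hL, map_sum, coeff_sum, Fin.sum_univ_five]
      have hC : ∀ a : k, psi k (C a) = C a := fun a => (psi k).commutes a
      simp only [map_mul, hC, psi_X, coeff_C_mul]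
      have hX : ∀ a b : Fin 3, (X a * X b : MvPolynomial (Fin 3) k) =
          monomial (Finsupp.single a 1 + Finsupp.single b 1) 1 := by
        intro a b
        rw [X, X, monomial_mul, mul_one]
      have hx : ∀ a b : Fin 3, ∀ γ : Fin 3 →₀ ℕ, coeff γ (X a * X b : MvPolynomial (Fin 3) k) =
          if Finsupp.single a 1 + Finsupp.single b 1 = γ then 1 else 0 := by
        intro a b γ
        rw [hX, coeff_monomial]
      have t : ∀ f g : Fin 3 →₀ ℕ, (f = g) ↔ (f 0 = g 0 ∧ f 1 = g 1 ∧ f 2 = g 2) := by
        intro f g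
        constructor
        · rintro rfl; exact ⟨rfl, rfl, rfl⟩
        · rintro ⟨h0, h1, h2⟩
          ext i
          fin_cases i
          · exact h0
          · exact h1
          · exact h2
      have e0 : qq k 0 = X 0 * X 0 := rfl
      have e1 : qq k 1 = X 0 * X 1 := rfl
      have e2 : qq k 2 = X 1 * X 1 + X 0 * X 2 := rfl
      have e3 : qq k 3 = X 1 * X 2 := rfl
      have e4 : qq k 4 = X 2 * X 2 := rfl
      rw [e0, e1, e2, e3, e4, coeff_add, hx, hx, hx, hx, hx, hx]
      simp [t]
    rw [h0, coeff_zero] at h1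
    exact hA h1.symm
  have hmem : Q ∈ linIdeal A := by
    apply h Q hQ2
    refine ⟨1, fun i => ?_⟩
    have hqi : (qq k i).IsHomogeneous 2 := by
      have := psi_isHomogeneous 1 (X i) (isHomogeneous_X k i)
      rwa [psi_X] at this
    obtain ⟨Ri, hRi2, hRi⟩ := mem_quartic (k := k) (p := qq k i * (X 0 * X 2)) (hqi.mul hr)
    have h1 : X i * Q - Ri * L ∈ PC k m := by
      change phi k m (X i * Q - Ri * L) = 0
      have : psi k (X i * Q - Ri * L) = 0 := by
        rw [map_sub, map_mul, map_mul, hQ, hRi, psi_X]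
        ring
      unfold phi
      rw [AlgHom.comp_apply, this, map_zero]
    have h2 : X i ^ 1 * Q = (X i * Q - Ri * L) + Ri * L := by ring
    rw [h2]
    refine Ideal.add_mem _ (Ideal.mem_sup_left h1) (Ideal.mem_sup_right ?_)
    rw [hlin]
    exact Ideal.mul_mem_left _ _ (Ideal.mem_span_singleton_self L)
  rw [hlin, Ideal.mem_span_singleton'] at hmem
  obtain ⟨g, hg⟩ := hmem
  have h1 : psi k g * psi k L = X 0 * X 2 * psi k L := by
    rw [← map_mul, hg, hQ]
  have h2 : psi k g = X 0 * X 2 := mul_right_cancel₀ hpsiL h1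
  have h3 := functional g
  rw [h2] at h3
  have hX : (X 0 * X 2 : MvPolynomial (Fin 3) k) =
      monomial (Finsupp.single 0 1 + Finsupp.single 2 1) 1 := by
    rw [X, X, monomial_mul, mul_one]
  rw [hX, coeff_monomial, coeff_monomial, if_pos rfl, if_neg] at h3
  · exact one_ne_zero h3
  · intro h
    have := DFunLike.congr_fun h 0
    simp at this

theorem not_ND [Infinite k] (m : ℕ) : ¬ ND (PC k m) 3 2 := by
  intro h
  obtain ⟨F, hF, hA⟩ := h 1 (by norm_num)
  have h1 : F * X (0, 0) ≠ 0 := mul_ne_zero hF (X_ne_zero _)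
  have h2 : ∃ A : Fin 1 × Fin (4 + 1) → k, eval A (F * X (0, 0)) ≠ 0 := by
    by_contra hcon
    push Not at hcon
    apply h1
    apply MvPolynomial.funext
    intro A
    rw [hcon A, map_zero]
  obtain ⟨A, hA1⟩ := h2
  rw [map_mul, eval_X] at hA1
  exact not_noHypersurfaceOn m A (right_ne_zero_of_mul hA1) (hA A (left_ne_zero_of_mul hA1))

end Pool.Agent.Q80.ND
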