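import Pool.Agent.Q80.ND.Defs
import Pool.Agent.Helper56.Disc.Core

/-!
Rational curves of large degree on the projected Veronese surface.
-/

namespace Pool.Agent.Q80.ND

open MvPolynomial Pool.Agent.Helper56.Disc

variable {k : Type*} [Field k]

/-- five conics -/
noncomputable def qq (k : Type*) [Field k] : Fin 5 → MvPolynomial (Fin 3) k :=
  ![X 0 * X 0, X 0 * X 1, X 1 * X 1 + X 0 * X 2, X 1 * X 2, X 2 * X 2]

/-- the parametrisation of the projected Veronese surface -/
noncomputable def psi (k : Type*) [Field k] : MvPolynomial (Fin 5) k →ₐ[k] MvPolynomial (Fin 3) k :=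
  aeval (qq k)

/-- images of forms -/
noncomputable def WW (k : Type*) [Field k] (j : ℕ) : Submodule k (MvPolynomial (Fin 3) k) :=
  (homogeneousSubmodule (Fin 5) k j).map (psi k).toLinearMap

theorem psi_X (i : Fin 5) : psi k (X i) = qq k i := by
  simp [psi]

theorem qq_mul_mem {j : ℕ} {p : MvPolynomial (Fin 3) k} (hp : p ∈ WW k j) (i : Fin 5) :
    qq k i * p ∈ WW k (j + 1) := by
  obtain ⟨f, hf, rfl⟩ := hp
  refine ⟨X i * f, ?_, ?_⟩
  · rw [SetLike.mem_coe, mem_homogeneousSubmodule] at hf ⊢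
    have := (isHomogeneous_X k i).mul hf
    rwa [add_comm] at this
  · simp [psi_X]

theorem one_mem : (1 : MvPolynomial (Fin 3) k) ∈ WW k 0 := by
  refine ⟨1, ?_, by simp⟩
  rw [SetLike.mem_coe, mem_homogeneousSubmodule]
  exact isHomogeneous_one _ _

theorem qq_mul_qq_mem (i j : Fin 5) : qq k i * qq k j ∈ WW k 2 := by
  have h1 := qq_mul_mem (one_mem (k := k)) j
  rw [mul_one] at h1
  exact qq_mul_mem h1 i

/-- monomials in three variables -/
noncomputable def m3 (k : Type*) [Field k] (a b c : ℕ) : MvPolynomial (Fin 3) k :=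
  X 0 ^ a * X 1 ^ b * X 2 ^ c

theorem m3_mem_two (a b c : ℕ) (h : a + b + c = 4) : m3 k a b c ∈ WW k 2 := by
  have h00 := qq_mul_qq_mem (k := k) 0 0
  have h01 := qq_mul_qq_mem (k := k) 0 1
  have h02 := qq_mul_qq_mem (k := k) 0 2
  have h03 := qq_mul_qq_mem (k := k) 0 3
  have h04 := qq_mul_qq_mem (k := k) 0 4
  have h11 := qq_mul_qq_mem (k := k) 1 1
  have h12 := qq_mul_qq_mem (k := k) 1 2
  have h13 := qq_mul_qq_mem (k := k) 1 3
  have h14 := qq_mul_qq_mem (k := k) 1 4
  have h22 := qq_mul_qq_mem (k := k) 2 2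
  have h23 := qq_mul_qq_mem (k := k) 2 3
  have h24 := qq_mul_qq_mem (k := k) 2 4
  have h33 := qq_mul_qq_mem (k := k) 3 3
  have h34 := qq_mul_qq_mem (k := k) 3 4
  have h44 := qq_mul_qq_mem (k := k) 4 4
  have e0 : qq k 0 = X 0 * X 0 := rfl
  have e1 : qq k 1 = X 0 * X 1 := rfl
  have e2 : qq k 2 = X 1 * X 1 + X 0 * X 2 := rfl
  have e3 : qq k 3 = X 1 * X 2 := rfl
  have e4 : qq k 4 = X 2 * X 2 := rfl
  simp only [e0, e1, e2, e3, e4] at h00 h01 h02 h03 h04 h11 h12 h13 h14 h22 h23 h24 h33 h34 h44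
  unfold m3
  have hc : c = 4 - a - b := by omega
  have ha : a ≤ 4 := by omega
  have hb : b ≤ 4 - a := by omega
  subst hc
  interval_cases a
  · interval_cases b
    · convert h44 using 1; ring
    · convert h34 using 1; ring
    · convert h33 using 1; ring
    · convert (WW k 2).sub_mem h23 h14 using 1; ring
    · convert (WW k 2).sub_mem ((WW k 2).sub_mem h22 ((WW k 2).add_mem h13 h13)) h04 using 1; ring
  · interval_cases b
    · convert (WW k 2).sub_mem h24 h33 using 1; ring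
    · convert h14 using 1; ring
    · convert h13 using 1; ring
    · convert (WW k 2).sub_mem h12 h03 using 1; ring
  · interval_cases b
    · convert h04 using 1; ring
    · convert h03 using 1; ring
    · convert h11 using 1; ring
  · interval_cases b
    · convert (WW k 2).sub_mem h02 h11 using 1; ring
    · convert h01 using 1; ring
  · interval_cases b
    convert h00 using 1; ring

theorem m3_mem (j : ℕ) (hj : 2 ≤ j) : ∀ a b c : ℕ, a + b + c = 2 * j → m3 k a b c ∈ WW k j := by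
  induction j, hj using Nat.le_induction with
  | base => exact m3_mem_two
  | succ j hj ih =>
    intro a b c h
    have key : ∀ (i : Fin 5) (a' b' c' : ℕ), a' + b' + c' = 2 * j →
        qq k i * m3 k a' b' c' ∈ WW k (j + 1) := fun i a' b' c' h' => qq_mul_mem (ih a' b' c' h') i
    by_cases ha : 2 ≤ a
    · obtain ⟨a', rfl⟩ : ∃ a', a = a' + 2 := ⟨a - 2, by omega⟩
      convert key 0 a' b c (by omega) using 1
      change X 0 ^ (a' + 2) * X 1 ^ b * X 2 ^ c = X 0 * X 0 * (X 0 ^ a' * X 1 ^ b * X 2 ^ c)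
      ring
    by_cases hc : 2 ≤ c
    · obtain ⟨c', rfl⟩ : ∃ c', c = c' + 2 := ⟨c - 2, by omega⟩
      convert key 4 a b c' (by omega) using 1
      change X 0 ^ a * X 1 ^ b * X 2 ^ (c' + 2) = X 2 * X 2 * (X 0 ^ a * X 1 ^ b * X 2 ^ c')
      ring
    obtain ⟨b', rfl⟩ : ∃ b', b = b' + 2 := ⟨b - 2, by omega⟩
    by_cases ha1 : a = 1
    · subst ha1
      convert key 1 0 (b' + 1) c (by omega) using 1
      change X 0 ^ 1 * X 1 ^ (b' + 2) * X 2 ^ c = X 0 * X 1 * (X 0 ^ 0 * X 1 ^ (b' + 1) * X 2 ^ c)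
      ring
    by_cases hc1 : c = 1
    · subst hc1
      convert key 3 a (b' + 1) 0 (by omega) using 1
      change X 0 ^ a * X 1 ^ (b' + 2) * X 2 ^ 1 = X 1 * X 2 * (X 0 ^ a * X 1 ^ (b' + 1) * X 2 ^ 0)
      ring
    have h1 := key 2 0 b' 0 (by omega)
    obtain ⟨b'', rfl⟩ : ∃ b'', b' = b'' + 1 := ⟨b' - 1, by omega⟩
    have h2 := key 1 0 b'' 1 (by omega)
    have : a = 0 := by omega
    subst this
    have : c = 0 := by omega
    subst this
    convert (WW k (j + 1)).sub_mem h1 h2 using 1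
    change X 0 ^ 0 * X 1 ^ (b'' + 1 + 2) * X 2 ^ 0 = (X 1 * X 1 + X 0 * X 2) *
      (X 0 ^ 0 * X 1 ^ (b'' + 1) * X 2 ^ 0) - X 0 * X 1 * (X 0 ^ 0 * X 1 ^ b'' * X 2 ^ 1)
    ring

theorem monomial_eq_m3 (α : Fin 3 →₀ ℕ) (r : k) :
    monomial α r = r • m3 k (α 0) (α 1) (α 2) := by
  rw [monomial_eq, Finsupp.prod_fintype _ _ (by simp), Fin.prod_univ_three, smul_eq_C_mul]
  rfl

theorem degree_eq3 (α : Fin 3 →₀ ℕ) : α.degree = α 0 + α 1 + α 2 := by
  have h2 : α.degree = ∑ l : Fin 3, α l := by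
    rw [Finsupp.degree_apply]
    apply Finset.sum_subset (Finset.subset_univ _)
    intro x _ hx
    simpa using hx
  rw [h2, Fin.sum_univ_three]

theorem WW_eq (j : ℕ) (hj : 2 ≤ j) : WW k j = homogeneousSubmodule (Fin 3) k (2 * j) := by
  apply le_antisymm
  · rintro _ ⟨f, hf, rfl⟩
    rw [SetLike.mem_coe, mem_homogeneousSubmodule] at hf
    rw [mem_homogeneousSubmodule]
    have h1 : ∀ i, (qq k i).IsHomogeneous 2 := by
      intro i
      have h2 : ∀ a b : Fin 3, (X a * X b : MvPolynomial (Fin 3) k).IsHomogeneous 2 :=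
        fun a b => (isHomogeneous_X k a).mul (isHomogeneous_X k b)
      fin_cases i
      · exact h2 0 0
      · exact h2 0 1
      · exact (h2 1 1).add (h2 0 2)
      · exact h2 1 2
      · exact h2 2 2
    exact hf.aeval _ h1
  · intro p hp
    rw [mem_homogeneousSubmodule] at hp
    rw [p.as_sum]
    refine Submodule.sum_mem _ fun α hα => ?_
    rw [monomial_eq_m3]
    refine Submodule.smul_mem _ _ (m3_mem j hj _ _ _ ?_)
    rw [← degree_eq3]
    exact degree_of_isHomogeneous hp (mem_support_iff.1 hα)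

end Pool.Agent.Q80.ND
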